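import Mathlib
import Pool.Agent.T6.H67.EdgeCol

/-!
# Online partial `Δ`-edge-colouring with colouring probability `1 - o(1)`

The algorithm keeps for every vertex `w` and every colour `c` a number `X w c`, which is `0` if an
edge at `w` has got the colour `c`, and otherwise is the inverse of the product of the factors
`1 - p`, where `p` runs over the probabilities with which the earlier edges at `w` got the colour
`c`. A new edge `uv` gets the colour `c` with probability `(1 - ε) / Δ * X u c * X v c`, unless one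
of the numbers is larger than `2 / ε` or these probabilities add up to more than `1`. The second
moments of two families of martingales show that these exceptions are rare.
-/

set_option autoImplicit false

open Filter Topology
open scoped ENNReal

namespace Pool.Agent.Results.MP_8fc531_lc.NearlyPerfect

/-- A history: the edges revealed so far, in the order of arrival, together with the irrevocable
decision for each of them, a colour or `none` if the edge was left uncoloured. -/
abbrev History (V : Type) (Δ : ℕ) : Type := List (Sym2 V × Option (Fin Δ))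

/-- A randomised online algorithm for partial edge colouring with `Δ` colours on the vertex set
`V`. -/
structure OnlineAlgorithm (V : Type) (Δ : ℕ) where
  /-- The law of the decision for the new edge, given the history. -/
  law : History V Δ → Sym2 V → PMF (Option (Fin Δ))
  /-- An edge never gets the colour of an earlier edge with which it shares an endpoint. -/
  proper : ∀ (h : History V Δ) (e : Sym2 V) (c : Fin Δ), law h e (some c) ≠ 0 →
    ∀ e' : Sym2 V, (e', some c) ∈ h → ∀ w : V, ¬ (w ∈ e ∧ w ∈ e')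

/-- The law of the history when the edges `es` have been revealed in this order. -/
noncomputable def OnlineAlgorithm.run {V : Type} {Δ : ℕ} (A : OnlineAlgorithm V Δ)
    (es : List (Sym2 V)) : PMF (History V Δ) :=
  es.foldl (fun μ e => μ.bind fun h => (A.law h e).map fun k => h ++ [(e, k)]) (PMF.pure [])

/-- The probability that the edge `e` gets a colour when the edges `es` are revealed in this
order. -/
noncomputable def OnlineAlgorithm.colourProb {V : Type} {Δ : ℕ} (A : OnlineAlgorithm V Δ)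
    (es : List (Sym2 V)) (e : Sym2 V) : ℝ≥0∞ :=
  (A.run es).toOuterMeasure {h | ∃ c : Fin Δ, (e, some c) ∈ h}

/-- `G` has maximum degree at most `Δ` and girth at least `L`, and `es` is an arrival order of its
edges. -/
def IsInput (Δ L : ℕ) {n : ℕ} (G : SimpleGraph (Fin n)) (es : List (Sym2 (Fin n))) : Prop :=
  (∀ v, (G.neighborSet v).ncard ≤ Δ) ∧ (L : ℕ∞) ≤ G.egirth ∧ es.Nodup ∧
    ∀ e, e ∈ es ↔ e ∈ G.edgeSet

/-- The number `q_A(Δ, L)`: the infimum of the probability that `e` gets a colour, over all inputs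
and all edges `e`. (An algorithm knows the vertex set, so it is a family indexed by the number
of vertices.) -/
noncomputable def q {Δ : ℕ} (A : ∀ n, OnlineAlgorithm (Fin n) Δ) (L : ℕ) : ℝ≥0∞ :=
  ⨅ (n : ℕ) (G : SimpleGraph (Fin n)) (es : List (Sym2 (Fin n))) (_ : IsInput Δ L G es)
    (e : Sym2 (Fin n)) (_ : e ∈ G.edgeSet), (A n).colourProb es e

/-- The number `p(Δ, L) = sup_A q_A(Δ, L)`. -/
noncomputable def p (Δ L : ℕ) : ℝ≥0∞ := ⨆ A : ∀ n, OnlineAlgorithm (Fin n) Δ, q A L

/-! ### The algorithm -/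

open Pool.Agent.T6.H67.EdgeCol

section alg

variable {V : Type} [Fintype V] [DecidableEq V] {Δ : ℕ}

/-- The state after a history. -/
noncomputable def stateOf (ε : ℝ) (h : History V Δ) : St V Δ :=
  h.foldl (fun s x => upd ε s x.1 x.2) (init V Δ)

theorem stateOf_append (ε : ℝ) (h : History V Δ) (x : Sym2 V × Option (Fin Δ)) :
    stateOf ε (h ++ [x]) = upd ε (stateOf ε h) x.1 x.2 := by
  unfold stateOf
  rw [List.foldl_append]
  rfl

theorem stateOf_zero (ε : ℝ) (h : History V Δ) (e' : Sym2 V) (c : Fin Δ) (hm : (e', some c) ∈ h)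
    (w : V) (hw : w ∈ e') : (stateOf ε h).X w c = 0 := by
  induction h using List.reverseRecOn with
  | nil => simp at hm
  | append_singleton h x ih =>
    rw [stateOf_append, upd_X]
    rw [List.mem_append, List.mem_singleton] at hm
    rcases hm with hm | hm
    · rw [ih hm]
      simp
    · rw [← hm]
      simp [hw]

/-- The law of the decision. -/
noncomputable def lawOf (ε : ℝ) (hε1 : ε ≤ 1) (h : History V Δ) (e : Sym2 V) :
    PMF (Option (Fin Δ)) :=
  PMF.ofFintype (fun k => ENNReal.ofReal (wt ε (stateOf ε h) e k)) (by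
    rw [← ENNReal.ofReal_sum_of_nonneg (fun k _ => wt_nonneg hε1 _ _ _), sum_wt,
      ENNReal.ofReal_one])

/-- The algorithm. -/
noncomputable def alg (V : Type) [Fintype V] [DecidableEq V] (Δ : ℕ) (ε : ℝ) (hε1 : ε ≤ 1) :
    OnlineAlgorithm V Δ where
  law := lawOf ε hε1
  proper := by
    intro h e c hne e' he' w hw
    apply hne
    have h0 := stateOf_zero ε h e' c he' w hw.2
    have h1 : pr ε (stateOf ε h) e c = 0 := by
      refine le_antisymm ?_ (pr_nonneg hε1 _ _ _)
      refine (pr_le_raw hε1 _ _ _).trans (le_of_eq ?_)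
      obtain ⟨v, rfl⟩ := hw.1
      rw [raw_mk, h0]
      simp
    show ENNReal.ofReal (wt ε (stateOf ε h) e (some c)) = 0
    show ENNReal.ofReal (pr ε (stateOf ε h) e c) = 0
    rw [h1, ENNReal.ofReal_zero]

theorem tsum_bind_mul {α β : Type} (p : PMF α) (f : α → PMF β) (g : β → ℝ≥0∞) :
    ∑' b, (p.bind f) b * g b = ∑' a, p a * ∑' b, f a b * g b := by
  simp_rw [PMF.bind_apply, ← ENNReal.tsum_mul_right, ← ENNReal.tsum_mul_left]
  rw [ENNReal.tsum_comm]
  simp_rw [mul_assoc]

theorem tsum_pure_mul {α : Type} (a : α) (g : α → ℝ≥0∞) : ∑' b, (PMF.pure a) b * g b = g a := by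
  rw [tsum_eq_single a]
  · simp
  · intro b hb
    simp [PMF.pure_apply, hb]

theorem tsum_map_mul {α β : Type} (p : PMF α) (f : α → β) (g : β → ℝ≥0∞) :
    ∑' b, (p.map f) b * g b = ∑' a, p a * g (f a) := by
  unfold PMF.map
  rw [tsum_bind_mul]
  simp_rw [Function.comp_apply, tsum_pure_mul]

omit [Fintype V] [DecidableEq V] in
theorem run_append (A : OnlineAlgorithm V Δ) (es : List (Sym2 V)) (e : Sym2 V) :
    A.run (es ++ [e]) = (A.run es).bind fun h => (A.law h e).map fun k => h ++ [(e, k)] := by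
  unfold OnlineAlgorithm.run
  rw [List.foldl_append]
  rfl

theorem expect_run (ε : ℝ) (hε1 : ε ≤ 1) (es : List (Sym2 V)) (F : St V Δ → ℝ)
    (hF : ∀ s, 0 ≤ F s) :
    ∑' h, ((alg V Δ ε hε1).run es) h * ENNReal.ofReal (F (stateOf ε h)) =
      ENNReal.ofReal (Ex ε es F (init V Δ)) := by
  induction es using List.reverseRecOn generalizing F with
  | nil =>
    show ∑' h, (PMF.pure ([] : History V Δ)) h * ENNReal.ofReal (F (stateOf ε h)) = _
    rw [tsum_pure_mul]
    rfl
  | append_singleton es e ih =>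
    rw [run_append, tsum_bind_mul]
    have h1 : ∀ h : History V Δ, (∑' h', (((alg V Δ ε hε1).law h e).map
        fun k => h ++ [(e, k)]) h' * ENNReal.ofReal (F (stateOf ε h'))) =
        ENNReal.ofReal (Ex ε [e] F (stateOf ε h)) := by
      intro h
      rw [tsum_map_mul, tsum_fintype]
      show _ = ENNReal.ofReal (∑ k, wt ε (stateOf ε h) e k * F (upd ε (stateOf ε h) e k))
      rw [ENNReal.ofReal_sum_of_nonneg (fun k _ => mul_nonneg (wt_nonneg hε1 _ _ _) (hF _))]
      refine Finset.sum_congr rfl fun k _ => ?_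
      rw [stateOf_append, ENNReal.ofReal_mul (wt_nonneg hε1 _ _ _)]
      rfl
    simp_rw [h1]
    rw [ih (Ex ε [e] F), Ex_append]
    intro s
    exact Finset.sum_nonneg fun k _ => mul_nonneg (wt_nonneg hε1 _ _ _) (hF _)

/-- Later edges do not change the event that `e` is coloured. -/
theorem outer_mono (A : OnlineAlgorithm V Δ) (e : Sym2 V) (es fs : List (Sym2 V)) :
    (A.run es).toOuterMeasure {h | ∃ c : Fin Δ, (e, some c) ∈ h} ≤
      (A.run (es ++ fs)).toOuterMeasure {h | ∃ c : Fin Δ, (e, some c) ∈ h} := by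
  induction fs using List.reverseRecOn with
  | nil => rw [List.append_nil]
  | append_singleton fs f ih =>
    refine ih.trans ?_
    rw [← List.append_assoc, run_append, PMF.toOuterMeasure_bind_apply, PMF.toOuterMeasure_apply]
    refine ENNReal.tsum_le_tsum fun h => ?_
    by_cases hh : h ∈ {h : History V Δ | ∃ c : Fin Δ, (e, some c) ∈ h}
    · rw [Set.indicator_of_mem hh]
      have h1 : (((A.law h f).map fun k => h ++ [(f, k)])).toOuterMeasure
          {h | ∃ c : Fin Δ, (e, some c) ∈ h} = 1 := by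
        rw [PMF.toOuterMeasure_map_apply, PMF.toOuterMeasure_apply_eq_one_iff]
        intro k _
        obtain ⟨c, hc⟩ := hh
        exact ⟨c, List.mem_append_left _ hc⟩
      rw [h1, mul_one]
    · rw [Set.indicator_of_notMem hh]
      exact zero_le

theorem colourProb_ge (ε : ℝ) (hε1 : ε ≤ 1) (es fs : List (Sym2 V)) (e : Sym2 V) :
    ENNReal.ofReal (Ex ε es (fun s => ∑ c, pr ε s e c) (init V Δ)) ≤
      (alg V Δ ε hε1).colourProb (es ++ e :: fs) e := by
  have h0 : es ++ e :: fs = (es ++ [e]) ++ fs := by simp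
  unfold OnlineAlgorithm.colourProb
  rw [h0]
  refine le_trans ?_ (outer_mono _ e (es ++ [e]) fs)
  rw [← expect_run ε hε1 es (fun s => ∑ c, pr ε s e c)
    (fun s => Finset.sum_nonneg fun c _ => pr_nonneg hε1 s e c), run_append,
    PMF.toOuterMeasure_bind_apply]
  refine ENNReal.tsum_le_tsum fun h => mul_le_mul_right ?_ _
  rw [PMF.toOuterMeasure_map_apply, PMF.toOuterMeasure_apply_fintype, Fintype.sum_option]
  refine le_trans ?_ le_add_self
  rw [ENNReal.ofReal_sum_of_nonneg (fun c _ => pr_nonneg hε1 _ _ _)]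
  refine Finset.sum_le_sum fun c _ => ?_
  rw [Set.indicator_of_mem]
  · exact le_of_eq rfl
  · exact ⟨c, by simp⟩

end alg

/-! ### The conclusion -/

theorem dg_le {Δ n : ℕ} {G : SimpleGraph (Fin n)} (hG : ∀ v, (G.neighborSet v).ncard ≤ Δ)
    {es : List (Sym2 (Fin n))} (hnd : es.Nodup) (hes : ∀ e ∈ es, e ∈ G.edgeSet) (w : Fin n) :
    dg es w ≤ Δ := by
  classical
  refine le_trans ?_ (hG w)
  have h1 : dg es w = (es.filter (fun e => w ∈ e)).length := by
    unfold dg
    rw [List.countP_eq_length_filter]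
  have h2 : (es.filter (fun e => w ∈ e)).toFinset.card = (es.filter (fun e => w ∈ e)).length :=
    List.toFinset_card_of_nodup (hnd.filter _)
  rw [h1, ← h2, ← Set.ncard_coe_finset]
  have h3 : ((es.filter (fun e => w ∈ e)).toFinset : Set (Sym2 (Fin n))) ⊆
      (fun v => s(w, v)) '' (G.neighborSet w) := by
    intro e he
    simp only [List.coe_toFinset, List.mem_filter, decide_eq_true_eq, Set.mem_ofPred_eq] at he
    obtain ⟨he1, v, rfl⟩ := he
    exact ⟨v, hes _ he1, rfl⟩
  exact (Set.ncard_le_ncard h3 (Set.toFinite _)).trans (Set.ncard_image_le (Set.toFinite _))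

theorem main {Δ : ℕ} (hΔ : 1 ≤ Δ) : ∃ A : ∀ n, OnlineAlgorithm (Fin n) Δ,
    ∀ (n : ℕ) (G : SimpleGraph (Fin n)), (∀ v, (G.neighborSet v).ncard ≤ Δ) →
      ∀ es : List (Sym2 (Fin n)), es.Nodup → (∀ e, e ∈ es ↔ e ∈ G.edgeSet) → ∀ e ∈ G.edgeSet,
        ENNReal.ofReal (1 - 17409 * (Δ : ℝ) ^ (-(1 / 9 : ℝ))) ≤ (A n).colourProb es e := by
  have hΔ1 : (1 : ℝ) ≤ Δ := by exact_mod_cast hΔ
  have hΔ0 : (0 : ℝ) < Δ := by linarith
  set ε : ℝ := (Δ : ℝ) ^ (-(1 / 9 : ℝ)) with hε
  have hε0 : 0 < ε := Real.rpow_pos_of_pos hΔ0 _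
  have hε1 : ε ≤ 1 := Real.rpow_le_one_of_one_le_of_nonpos hΔ1 (by norm_num)
  have hε9 : ε ^ 9 * Δ = 1 := by
    rw [hε, ← Real.rpow_natCast, ← Real.rpow_mul hΔ0.le]
    have : (-(1 / 9 : ℝ)) * ((9 : ℕ) : ℝ) = -1 := by norm_num
    rw [this, Real.rpow_neg_one, inv_mul_cancel₀ hΔ0.ne']
  refine ⟨fun n => alg (Fin n) Δ ε hε1, ?_⟩
  intro n G hG es hnd hes e he
  rcases le_or_gt (1 - 17409 * ε) 0 with hneg | hpos
  · rw [ENNReal.ofReal_of_nonpos hneg]; exact zero_le
  · have hsmall : ε < 1 / 17409 := by linarith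
    have hcond : 8 / ε ^ 2 ≤ Δ := by
      rw [div_le_iff₀ (by positivity)]
      have h1 : ε ^ 7 ≤ 1 / 8 := by
        calc ε ^ 7 ≤ (1 / 17409) ^ 7 := pow_le_pow_left₀ hε0.le hsmall.le 7
          _ ≤ 1 / 8 := by norm_num
      have h2 : 0 ≤ ε ^ 2 * Δ := by positivity
      have h3 : ε ^ 7 * (ε ^ 2 * Δ) = 1 := by rw [← hε9]; ring
      nlinarith
    obtain ⟨es1, es2, hsplit⟩ := List.append_of_mem ((hes e).2 he)
    have hnd' := hnd
    rw [hsplit, List.nodup_append] at hnd'
    have hd := dg_le hG hnd (fun e he => (hes e).1 he)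
    have hsub : ∀ w, dg es1 w ≤ dg es w := by
      intro w
      rw [hsplit]
      unfold dg
      rw [List.countP_append]
      omega
    have hmem1 : ∀ e' ∈ es1, e' ∈ G.edgeSet := fun e' he' =>
      (hes e').1 (by rw [hsplit]; exact List.mem_append_left _ he')
    have hmain : ∀ u v : Fin n, e = s(u, v) →
        1 - ε - 17408 / (ε ^ 8 * Δ) ≤ Ex ε es1 (fun s => ∑ c, pr ε s e c) (init (Fin n) Δ) := by
      rintro u v rfl
      refine main_bound hε0 hε1 hcond (fun e' he' => G.not_isDiag_of_mem_edgeSet (hmem1 e' he'))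
        hnd'.1 ?_ ?_ ?_
      · intro h
        exact G.not_isDiag_of_mem_edgeSet he (Sym2.mk_isDiag_iff.2 h)
      · intro h
        exact hnd'.2.2 _ h _ List.mem_cons_self rfl
      · intro w
        exact_mod_cast (hsub w).trans (hd w)
    obtain ⟨u, v, huv⟩ : ∃ u v, e = s(u, v) := by
      induction e using Sym2.ind with
      | _ u v => exact ⟨u, v, rfl⟩
    have h4 := hmain u v huv
    have h5 : 17408 / (ε ^ 8 * Δ) = 17408 * ε := by
      rw [div_eq_iff (by positivity)]
      calc (17408 : ℝ) = 17408 * (ε ^ 9 * Δ) := by rw [hε9, mul_one]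
        _ = 17408 * ε * (ε ^ 8 * Δ) := by ring
    rw [h5] at h4
    rw [hsplit]
    refine le_trans (ENNReal.ofReal_le_ofReal ?_) (colourProb_ge ε hε1 es1 es2 e)
    linarith

theorem p_ge {Δ : ℕ} (hΔ : 1 ≤ Δ) (L : ℕ) :
    ENNReal.ofReal (1 - 17409 * (Δ : ℝ) ^ (-(1 / 9 : ℝ))) ≤ p Δ L := by
  obtain ⟨A, hA⟩ := main hΔ
  refine le_trans ?_ (le_iSup (fun A : ∀ n, OnlineAlgorithm (Fin n) Δ => q A L) A)
  refine le_iInf fun n => le_iInf fun G => le_iInf fun es => le_iInf fun h => le_iInf fun e =>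
    le_iInf fun he => ?_
  exact hA n G h.1 es h.2.2.1 h.2.2.2 e he

theorem p_le {Δ : ℕ} (hΔ : 1 ≤ Δ) (L : ℕ) : p Δ L ≤ 1 := by
  refine iSup_le fun A => ?_
  have hin : IsInput Δ L (⊤ : SimpleGraph (Fin 2)) [s(0, 1)] := by
    refine ⟨fun v => ?_, ?_, by simp, ?_⟩
    · have : ((⊤ : SimpleGraph (Fin 2)).neighborSet v) ⊆ {v + 1} := by
        intro w hw
        have : v ≠ w := hw
        fin_cases v <;> fin_cases w <;> simp_all
      refine le_trans (Set.ncard_le_ncard this (Set.toFinite _)) ?_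
      rw [Set.ncard_singleton]
      exact hΔ
    · rw [SimpleGraph.le_egirth]
      intro a w hw
      exfalso
      have h1 := hw.three_le_length
      have h2 : w.support.tail.Nodup := hw.2
      have h3 : w.support.tail.length = w.length := by
        rw [List.length_tail, SimpleGraph.Walk.length_support]; rfl
      have h4 := h2.length_le_card
      rw [Fintype.card_fin] at h4
      omega
    · intro e
      induction e using Sym2.ind with
      | _ u v =>
        fin_cases u <;> fin_cases v <;> simp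
  refine le_trans (iInf_le_of_le 2 (iInf_le_of_le ⊤ (iInf_le_of_le _ (iInf_le_of_le hin
    (iInf_le_of_le s(0, 1) (iInf_le_of_le (by simp) le_rfl)))))) ?_
  unfold OnlineAlgorithm.colourProb
  rw [PMF.toOuterMeasure_apply]
  refine le_trans (ENNReal.tsum_le_tsum fun h => Set.indicator_le_self _ _ h) ?_
  exact le_of_eq (PMF.tsum_coe _)

/-- **Q1 has a positive answer, even without any girth condition.** (1) The limit of
`sup_L p(Δ, L)` for `Δ → ∞` is `1`. (2) For every `Δ ≥ 1` there is an online algorithm (one for each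
vertex set) that colours every edge of every graph of maximum degree at most `Δ`, for every
arrival order, with probability at least `1 - 17409 Δ ^ (-1/9)`. -/
theorem result :
    Tendsto (fun Δ : ℕ => ⨆ L : ℕ, p Δ L) atTop (𝓝 1) ∧
    ∀ Δ : ℕ, 1 ≤ Δ → ∃ A : ∀ n, OnlineAlgorithm (Fin n) Δ,
      ∀ (n : ℕ) (G : SimpleGraph (Fin n)), (∀ v, (G.neighborSet v).ncard ≤ Δ) →
        ∀ es : List (Sym2 (Fin n)), es.Nodup → (∀ e, e ∈ es ↔ e ∈ G.edgeSet) →
          ∀ e ∈ G.edgeSet,
            ENNReal.ofReal (1 - 17409 * (Δ : ℝ) ^ (-(1 / 9 : ℝ))) ≤ (A n).colourProb es e := by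
  refine ⟨?_, fun Δ hΔ => main hΔ⟩
  have h1 : Tendsto (fun Δ : ℕ => ENNReal.ofReal (1 - 17409 * (Δ : ℝ) ^ (-(1 / 9 : ℝ)))) atTop
      (𝓝 1) := by
    have h2 : Tendsto (fun Δ : ℕ => (Δ : ℝ) ^ (-(1 / 9 : ℝ))) atTop (𝓝 0) :=
      (tendsto_rpow_neg_atTop (by norm_num)).comp tendsto_natCast_atTop_atTop
    have h3 : Tendsto (fun Δ : ℕ => 1 - 17409 * (Δ : ℝ) ^ (-(1 / 9 : ℝ))) atTop (𝓝 1) := by
      have := (h2.const_mul 17409).const_sub 1
      simpa using this
    have h4 := (ENNReal.continuous_ofReal.tendsto 1).comp h3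
    rw [ENNReal.ofReal_one] at h4
    exact h4
  refine tendsto_of_tendsto_of_tendsto_of_le_of_le' h1 tendsto_const_nhds ?_ ?_
  · filter_upwards [eventually_ge_atTop 1] with Δ hΔ
    exact (p_ge hΔ 0).trans (le_iSup (fun L => p Δ L) 0)
  · filter_upwards [eventually_ge_atTop 1] with Δ hΔ
    exact iSup_le fun L => p_le hΔ L

end Pool.Agent.Results.MP_8fc531_lc.NearlyPerfect
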